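import Pool.Agent.U661.EI.Cw

/-!
# Einstein metrics in two curvature cones: volume, Weyl tensor and characteristic numbers are bounded
by the Euler characteristic, in every even dimension

In dimension four the Euler characteristic of a closed Einstein manifold is nonnegative, bounds its
signature (Hitchin, Thorpe) and the volume, and the squared norm of the Weyl tensor. This file has
statements of this kind in every even dimension `2 m ≥ 4` for Einstein metrics in two cones of
curvature tensors, for both signs `s = ±1` of the Ricci tensor `s (2 m - 1) κ` times the metric: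

(A) `s R = δ unitT + D + ∑ skewCurv (A a) - ∑ (h b ∧ h b)` for any number of skew forms `A a` and
symmetric forms `h b`, where `D` is a sum of Moore products of positive semidefinite quaternionic
hermitian forms, with the condition `RevM` of reversal by isometries (which is empty if there are no
`A a` and `h b`);
(B) `s R = δ unitT + P + skewCurv A + skewCurv B` for two skew forms, where `P` is an algebraic
curvature tensor with nonnegative curvature operator.

For these the following holds (`EinCone e s δ κ R`, `δ ≥ 0`):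

(1) `δ ≤ κ`, all sectional curvatures of `s R` differ from `δ` by at most `(2 m - 1) (κ - δ)`, and
`s^m` times the Gauss–Bonnet–Chern integrand of `R` is at least
`(2 m)! / ((4 π)^m m!)` times
`δ^m + m δ^(m-1) (κ - δ) + m (m-1) / 2 δ^(m-2) (κ - δ)² + δ^(m-2) |W|² / (8 (2 m - 1) (2 m - 3))`,
where `W = R - s κ unitT` is the Weyl tensor. For `m = 2` this is the classical formula, with the
sum of all terms equal to `κ² + |W|² / 24` for every `δ`.
(2) The integrated inequality, for `δ` depending on the point.
(3) For closed manifolds and a constant `δ > 0`, with the Euler characteristic `χ`: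
the volume is at most `s^m χ` divided by the constant of (1) with `W = 0`; the sign of `s^m χ` is
positive; and all Chern–Weil numbers (for instance the signature and the Pontryagin numbers) are
bounded in modulus by `m! (8 π (2 m - 1) κ / 3)^m coef P / cut m δ κ` times `s^m χ`.

By (1) the metric `(2 m - 1) κ g` has sectional curvatures in `[-1, 1]`, so (3) bounds the minimal
volume by a multiple of `s^m χ` that depends only on `m` and `δ / κ`.

The proof: the mixed Gauss–Bonnet sums of `δ unitT` and of the rest `K = s R - δ unitT` are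
nonnegative in all orders (`Pool.Agent.U661.RZ`, `Pool.Agent.Y195.HF`); the terms of order one and
two in `K` are computed exactly, the second one is `scal² - 4 |Ric|² + |K|²`
(`Pool.Agent.U661.EI.Quad`). The Einstein condition determines the first two invariants, and it
bounds all sectional curvatures.
-/

set_option autoImplicit false

namespace Pool.Agent.Results.MP_ebfab8_gt.EinsteinConeBounds

open Pool.Agent.W666.GB Pool.Agent.W669.HD Pool.Agent.U661.EI MeasureTheory

/-- At a point. -/
def Pointwise : Prop :=
  ∀ (m : ℕ) (V : Type) [NormedAddCommGroup V] [InnerProductSpace ℝ V]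
    (e : OrthonormalBasis (Fin m × Bool) ℝ V) (R : V → V → V → V → ℝ) (s δ κ : ℝ), 2 ≤ m →
    (s = 1 ∨ s = -1) → 0 ≤ δ → EinCone e s δ κ R →
    δ ≤ κ ∧ (∀ x y : V, ‖x‖ = 1 → ‖y‖ = 1 → inner ℝ x y = 0 →
      |s * R x y x y - δ| ≤ (2 * m - 1) * (κ - δ)) ∧
      quadGB m δ κ (devR e R (-(s * κ))) ≤ s ^ m * gbc e R

/-- The integrated inequality. -/
def Integral : Prop :=
  ∀ (m : ℕ) (M : Type) [MeasurableSpace M] (μ : Measure M) (K : CurvField m M) (δ : M → ℝ)
    (s κ : ℝ), 2 ≤ m → (s = 1 ∨ s = -1) → (∀ p, 0 ≤ δ p ∧ EinCone (K.e p) s (δ p) κ (K.R p)) →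
    Integrable K.gb μ →
    ∫ p, quadGB m (δ p) κ (devR (K.e p) (K.R p) (-(s * κ))) ∂μ ≤ s ^ m * ∫ p, K.gb p ∂μ

/-- The volume and the characteristic numbers. -/
def Numbers : Prop :=
  ∀ (m : ℕ) (M : Type) [MeasurableSpace M] (μ : Measure M) [IsFiniteMeasure μ]
    (K : CurvField m M) (s δ κ : ℝ), 2 ≤ m → (s = 1 ∨ s = -1) → 0 < δ →
    (∀ p, EinCone (K.e p) s δ κ (K.R p)) → Integrable K.gb μ →
    roundGB m 1 * cut m δ κ * μ.real Set.univ ≤ s ^ m * ∫ p, K.gb p ∂μ ∧
    (μ ≠ 0 → 0 < s ^ m * ∫ p, K.gb p ∂μ) ∧
    ∀ P : MultilinearMap ℝ (fun _ : Fin m => (Fin m × Bool → Fin m × Bool → ℝ)) ℝ,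
      cut m δ κ * |∫ p, cw (K.e p) P (K.R p) ∂μ| ≤
        m.factorial * (8 * Real.pi * (2 * m - 1) * κ / 3) ^ m * coef P *
          (s ^ m * ∫ p, K.gb p ∂μ)

theorem result : Pointwise ∧ Integral ∧ Numbers :=
  ⟨fun _ _ _ _ e _ _ _ _ hm hs hδ h => pointwise e hm hs hδ h,
    fun _ _ _ μ K δ _ _ hm hs h hi => integral μ K δ hm hs h hi,
    fun _ _ _ μ _ K _ _ _ hm hs hδ h hi =>
      ⟨(volume μ K hm hs hδ h hi).1, (volume μ K hm hs hδ h hi).2,
        fun P => characteristic μ K hm hs hδ h hi P⟩⟩

end Pool.Agent.Results.MP_ebfab8_gt.EinsteinConeBounds
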