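import Pool.Agent.U486.EW.Two

/-!
# Einstein six-manifolds with a two-sided bound of the curvature operator

Let `s = ±1`, `κ > 0`, and let `R` be the curvature tensor at a point of a Riemannian six-manifold
with Ricci tensor `5 s κ`, such that all eigenvalues of the curvature operator of `s R` lie in
`[-β κ, γ κ]`. Let `E` be the Gauss-Bonnet-Chern integrand, normalised to be `1` for curvature one,
and `|W|²` the square of the norm of the Weyl tensor as an operator on two-forms. Then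

`s E ≥ κ³ (1 - (1 + β) (γ - 1)² / 6) + κ (5 - 3 γ - β) |W|² / 90`,
`|W|² ≤ 15 (1 + β) (γ - 1) κ²`.

Hence `s E ≥ 0` as soon as `(1 + β) (γ - 1) (4 γ + β - 6) ≤ 6`, and `s E > 0` if this inequality is
strict; for instance for `(β, γ) = (1, 2)`: an Einstein six-manifold with Ricci tensor `-5 g` and
curvature operator between `-2` and `1` has Euler characteristic at most zero. For `β = 0` the
condition is `γ ≤ 5 / 2`; then the value zero is attained for the products of two space forms of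
dimension three.

Proof (`Pool/Agent/U486/EW/`, on the development in `Pool/Agent/TH594/`). Let `u_a` be the eigenvalues
of `-s W`, so that `-(γ - 1) κ ≤ u_a ≤ (1 + β) κ`. Then
`90 s E = 90 κ³ + 3 κ ∑ u_a² - ∑ u_a³ + ∑ u_a s_a` with `s_a ≥ 0` and `∑ s_a = 5 ∑ u_a²`.
-/

namespace Pool.Agent.Results.MP_ebfab8_gt.TwoSidedOperatorDimSix

open MeasureTheory Pool.Agent.TH594.HE Pool.Agent.TH594.HP Pool.Agent.U486.EW
open Pool.Agent.W666.GB (AlgCurv gbc roundGB CurvField)

/-- Einstein curvature tensors in dimension six with a two-sided bound of the curvature operator. -/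
theorem result :
    -- the inequalities at a point
    (∀ (V : Type) [NormedAddCommGroup V] [InnerProductSpace ℝ V]
      (e : OrthonormalBasis (Fin 3 × Bool) ℝ V) (s κ β γ : ℝ) (R : V → V → V → V → ℝ),
      (s = 1 ∨ s = -1) → 0 < κ → Two e s κ β γ R →
        roundGB 3 1 * (κ ^ 3 * (1 - (1 + β) * (γ - 1) ^ 2 / 6) +
          κ * (5 - 3 * γ - β) * wsq e R (s * κ) / 90) ≤ s * gbc e R ∧
        wsq e R (s * κ) ≤ 15 * ((1 + β) * (γ - 1)) * κ ^ 2 ∧
        (5 ≤ 3 * γ + β → roundGB 3 1 * (κ ^ 3 * (1 - (1 + β) * (γ - 1) * (4 * γ + β - 6) / 6)) ≤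
          s * gbc e R) ∧
        ((1 + β) * (γ - 1) * (4 * γ + β - 6) ≤ 6 → 0 ≤ s * gbc e R) ∧
        ((1 + β) * (γ - 1) * (4 * γ + β - 6) < 6 → 0 < s * gbc e R)) ∧
    -- the sign of the integral, with bounds depending on the point
    (∀ (M : Type) [MeasurableSpace M] (μ : Measure M) (K : CurvField 3 M) (s κ : ℝ)
      (β γ : M → ℝ), (s = 1 ∨ s = -1) → 0 < κ →
      (∀ p, Two (K.e p) s κ (β p) (γ p) (K.R p) ∧
        (1 + β p) * (γ p - 1) * (4 * γ p + β p - 6) ≤ 6) →
        0 ≤ s * ∫ p, K.gb p ∂μ ∧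
        (Integrable K.gb μ → μ {p | (1 + β p) * (γ p - 1) * (4 * γ p + β p - 6) < 6} ≠ 0 →
          0 < s * ∫ p, K.gb p ∂μ)) ∧
    -- the volume bound
    (∀ (M : Type) [MeasurableSpace M] (μ : Measure M) [IsFiniteMeasure μ] (K : CurvField 3 M)
      (s κ β γ : ℝ), (s = 1 ∨ s = -1) → 0 < κ → (∀ p, Two (K.e p) s κ β γ (K.R p)) →
      5 ≤ 3 * γ + β → Integrable K.gb μ →
        roundGB 3 1 * (κ ^ 3 * (1 - (1 + β) * (γ - 1) * (4 * γ + β - 6) / 6)) *
          μ.real Set.univ ≤ s * ∫ p, K.gb p ∂μ) ∧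
    -- equality for the products of two space forms of dimension three
    (∀ (V : Type) [NormedAddCommGroup V] [InnerProductSpace ℝ V]
      (e : OrthonormalBasis (Fin 3 × Bool) ℝ V) (s κ : ℝ), (s = 1 ∨ s = -1) → 0 < κ →
      ∃ R : V → V → V → V → ℝ, Two e s κ 0 (5 / 2) R ∧ gbc e R = 0 ∧
        wsq e R (s * κ) = 15 * ((1 + 0) * (5 / 2 - 1)) * κ ^ 2) := by
  refine ⟨?_, ?_, ?_, ?_⟩
  · intro V _ _ e s κ β γ R hs hκ h
    exact ⟨(h.main hs).1, (h.main hs).2.1, fun h5 => h.val hs hκ h5, fun h6 => h.nonneg hs hκ h6,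
      fun h6 => h.pos hs hκ h6⟩
  · intro M _ μ K s κ β γ hs hκ h
    have h0 : ∀ p, 0 ≤ s * K.gb p := fun p => (h p).1.nonneg hs hκ (h p).2
    rw [← integral_const_mul]
    refine ⟨integral_nonneg h0, fun hi hμ => ?_⟩
    refine pos_of μ _ h0 (hi.const_mul _) _ ?_ hμ
    intro p hp
    exact (h p).1.pos hs hκ hp
  · intro M _ μ _ K s κ β γ hs hκ h h5 hi
    rw [← integral_const_mul]
    have h1 : ∫ _ : M, roundGB 3 1 * (κ ^ 3 * (1 - (1 + β) * (γ - 1) * (4 * γ + β - 6) / 6)) ∂μ ≤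
        ∫ p, s * K.gb p ∂μ :=
      integral_mono (integrable_const _) (hi.const_mul _) fun p => (h p).val hs hκ h5
    rw [integral_const, smul_eq_mul] at h1
    rw [mul_comm]
    exact h1
  · intro V _ _ e s κ hs hκ
    refine ⟨prodT e (5 / 2 * (s * κ)), prodT_two e hs hκ.le, prodT_gbc _ _, ?_⟩
    rw [prodT_wsq]
    rcases hs with rfl | rfl <;> ring

end Pool.Agent.Results.MP_ebfab8_gt.TwoSidedOperatorDimSix
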