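import Pool.Agent.U661.EI.Wei

/-!
# Einstein metrics with small Weyl tensor: the Gauss–Bonnet defect is the norm of the Weyl tensor,
with constants that do not depend on the dimension

Let `c = roundGB m 1` be the value of the Gauss–Bonnet–Chern integrand for constant curvature `1` in
the dimension `n = 2 m ≥ 4`.

(1) `Universal`, for every curvature tensor `R`: let `κ = meanK R` be the mean of the negative
sectional curvatures, `K = - R - κ unitT`, and `dev R` the larger one of the Hilbert–Schmidt norms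
of `K` and its Ricci tensor, divided by `n`. Then
`(-1)^m gbc R = c (κ^m + κ^(m-2) (|K|² - 4 |Ric K|²) / (8 (2 m - 1) (2 m - 3))) + remainder` with
`|remainder| ≤ (3/10) c ∑_{j=3}^m |κ|^(m-j) (5 · 10⁵ dev R)^j`: the terms of order at most two are
exact, and the remainder has order three with absolute constants.

(2) `Pointwise`, for Einstein tensors with Ricci tensor `s (2 m - 1) κ` times the metric,
`s = ±1`, `κ ≥ 0`, Weyl tensor `W = R - s κ unitT`, `Q = κ^(m-2) |W|² / (8 (2 m - 1) (2 m - 3))`: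
`|s^m gbc R - c (κ^m + Q)| ≤ c (Q / 2 + (10¹⁹ |W| / n)^m)`, and if `10¹⁹ |W| / n ≤ κ` then
`|s^m gbc R - c (κ^m + Q)| ≤ c Q / 2`.

(3) `Integral`: the same for the integrals over a closed manifold. So for an Einstein metric with
`10¹⁹ |W| / n ≤ κ` the defect `s^m χ - c κ^m vol` lies between `1/2` and `3/2` times
`c κ^(m-2) ∫ |W|² / (8 (2 m - 1) (2 m - 3))`; it is nonnegative, and zero only for constant
curvature (`Rigid`).

For hyperbolic manifolds this gives with the theorem of Besson, Courtois and Gallot (which is not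
used here) that a metric as in (3) on a manifold homotopy equivalent to a hyperbolic one is
hyperbolic.

The proof: the expansion of `Pool.Agent.U661.EI.GenFin`, whose terms of order one and two are
computed exactly; the terms of higher order are compared, as coefficients of a polynomial, with
those of the expansion in the library `W666.GB`, for which there are moment estimates.
-/

set_option autoImplicit false

namespace Pool.Agent.Results.MP_ebfab8_gt.WeylDefect

open Pool.Agent.W666.GB Pool.Agent.W669.HD Pool.Agent.U661.EI MeasureTheory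
open Pool.Agent.U908.HS (meanK dev)

/-- All curvature tensors. -/
def Universal : Prop :=
  ∀ (m : ℕ) (V : Type) [NormedAddCommGroup V] [InnerProductSpace ℝ V]
    (e : OrthonormalBasis (Fin m × Bool) ℝ V) (R : V → V → V → V → ℝ), 2 ≤ m → AlgCurv R →
    |(-1) ^ m * gbc e R - roundGB m 1 * (meanK e R ^ m +
      ord2 e (meanK e R) (restT (meanK e R) R))| ≤ roundGB m 1 * (3 / 10 *
        ∑ j ∈ Finset.Icc 3 m, |meanK e R| ^ (m - j) * (5 * 10 ^ 5 * dev e R) ^ j)

/-- Einstein tensors. -/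
def Pointwise : Prop :=
  ∀ (m : ℕ) (V : Type) [NormedAddCommGroup V] [InnerProductSpace ℝ V]
    (e : OrthonormalBasis (Fin m × Bool) ℝ V) (R : V → V → V → V → ℝ) (s κ : ℝ), 2 ≤ m →
    AlgCurv R → (s = 1 ∨ s = -1) → 0 ≤ κ → Einstein e R (s * κ) →
    |s ^ m * gbc e R - roundGB m 1 * (κ ^ m + weyl2 m κ (weylSq e s κ R))| ≤
      roundGB m 1 * (1 / 2 * weyl2 m κ (weylSq e s κ R) + (10 ^ 19 * weylN e s κ R) ^ m) ∧
    (10 ^ 19 * weylN e s κ R ≤ κ →
      |s ^ m * gbc e R - roundGB m 1 * (κ ^ m + weyl2 m κ (weylSq e s κ R))| ≤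
      roundGB m 1 * (1 / 2 * weyl2 m κ (weylSq e s κ R)))

/-- The integrated inequalities for Einstein metrics. -/
def Integral : Prop :=
  ∀ (m : ℕ) (M : Type) [MeasurableSpace M] (μ : Measure M) [IsFiniteMeasure μ]
    (K : CurvField m M) (s κ : ℝ), 2 ≤ m → (s = 1 ∨ s = -1) → 0 ≤ κ →
    (∀ p, Einstein (K.e p) (K.R p) (s * κ)) → Integrable K.gb μ →
    Integrable (fun p => weylSq (K.e p) s κ (K.R p)) μ →
    (Integrable (fun p => (10 ^ 19 * weylN (K.e p) s κ (K.R p)) ^ m) μ →
      |s ^ m * ∫ p, K.gb p ∂μ - roundGB m 1 * (κ ^ m * μ.real Set.univ +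
        weyl2 m κ (∫ p, weylSq (K.e p) s κ (K.R p) ∂μ))| ≤
      roundGB m 1 * (1 / 2 * weyl2 m κ (∫ p, weylSq (K.e p) s κ (K.R p) ∂μ) +
        ∫ p, (10 ^ 19 * weylN (K.e p) s κ (K.R p)) ^ m ∂μ)) ∧
    ((∀ p, 10 ^ 19 * weylN (K.e p) s κ (K.R p) ≤ κ) →
      |s ^ m * ∫ p, K.gb p ∂μ - roundGB m 1 * (κ ^ m * μ.real Set.univ +
        weyl2 m κ (∫ p, weylSq (K.e p) s κ (K.R p) ∂μ))| ≤
      roundGB m 1 * (1 / 2 * weyl2 m κ (∫ p, weylSq (K.e p) s κ (K.R p) ∂μ)))

/-- The volume is at most the Euler characteristic of constant curvature, with equality only for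
constant curvature. -/
def Rigid : Prop :=
  ∀ (m : ℕ) (M : Type) [MeasurableSpace M] (μ : Measure M) [IsFiniteMeasure μ]
    (K : CurvField m M) (s κ : ℝ), 2 ≤ m → (s = 1 ∨ s = -1) → 0 < κ →
    (∀ p, Einstein (K.e p) (K.R p) (s * κ)) → Integrable K.gb μ →
    Integrable (fun p => weylSq (K.e p) s κ (K.R p)) μ →
    (∀ p, 10 ^ 19 * weylN (K.e p) s κ (K.R p) ≤ κ) →
    roundGB m 1 * κ ^ m * μ.real Set.univ ≤ s ^ m * ∫ p, K.gb p ∂μ ∧
    (s ^ m * ∫ p, K.gb p ∂μ = roundGB m 1 * κ ^ m * μ.real Set.univ ↔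
      ∀ᵐ p ∂μ, weylSq (K.e p) s κ (K.R p) = 0)

theorem result : Universal ∧ Pointwise ∧ Integral ∧ Rigid :=
  ⟨fun _ _ _ _ e _ hm hR => universal_dev e hm hR,
    fun _ _ _ _ e _ _ _ hm hR hs hκ hE => ein_point e hm hR hs hκ hE,
    fun _ _ _ μ _ K _ _ hm hs hκ hE hi hD => ein_integral μ K hm hs hκ hE hi hD,
    fun _ _ _ μ _ K _ _ hm hs hκ hE hi hD hsm => ein_rigid μ K hm hs hκ hE hi hD hsm⟩

end Pool.Agent.Results.MP_ebfab8_gt.WeylDefect
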