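import Pool.Agent.U486.EW.Exa

/-!
# Einstein six-manifolds whose Weyl tensor is bounded in norm

Let `R` be the curvature tensor at a point of a Riemannian six-manifold with Ricci tensor `5 κ`
(`κ` any real number), let `|W|²` be the square of the norm of its Weyl tensor as an operator on
two-forms, and let `E` be the Gauss-Bonnet-Chern integrand, normalised to be `1` for curvature one.
Then `|E - κ³ - κ |W|² / 30| ≤ |W|³ / 45`. Hence `κ E > 0` if `|W|² ≤ 17 κ²`, and the
Euler characteristic of a closed Einstein six-manifold has the sign of `κ` if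
`2 ∫ |W|³ < 90 |κ|³ vol + 3 |κ| ∫ |W|²`, for example if `∫ |W|³ ≤ 45 |κ|³ vol` (the scale
invariant norm of the Weyl tensor). The products of two space forms of dimension three have
`|W|² = (45 / 2) κ²` and `E = 0`.

Proof (`Pool/Agent/U486/EW/`, on the development in `Pool/Agent/TH594/`). Let `h_a` be an orthonormal
basis of eigenforms of `W` with eigenvalues `u_a`, and put `p_abc = |h_a ∧ h_b ∧ h_c|²`,
`s_a = 1/2 ∑ p_abc (u_b - u_c)²`. Then `90 E(W) = ∑ p_abc u_a u_b u_c = ∑ u_a³ - ∑ u_a s_a`,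
`∑ s_a = 5 |W|²`, and the identity `s_a + u_a² = 1/2 ∑ ⟨[h_a, h_b], h_c⟩² (u_b + u_c)²` leads to
`s_a / 2 + u_a² / 6 ≤ r_a ≤ |W|² + u_a² / 12 - s_a / 4` for `r_a = 1/2 ∑ p_abc (u_b² + u_c²)`; with
`∑ r_a = 6 |W|²` and `∑ u_a r_a = ∑ u_a³` the cubic form is at most `2 |W|³` in modulus.
-/

namespace Pool.Agent.Results.MP_ebfab8_gt.WeylNormDimSix

open MeasureTheory Pool.Agent.TH594.HE Pool.Agent.U486.EW
open Pool.Agent.W666.GB (AlgCurv gbc roundGB CurvField)

/-- Einstein curvature tensors in dimension six with a bound on the norm of the Weyl tensor. -/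
theorem result :
    -- the pointwise estimate
    (∀ (V : Type) [NormedAddCommGroup V] [InnerProductSpace ℝ V]
      (e : OrthonormalBasis (Fin 3 × Bool) ℝ V) (R : V → V → V → V → ℝ) (κ : ℝ), AlgCurv R →
      Einstein e R κ →
        |gbc e R - roundGB 3 1 * (κ ^ 3 + κ * wsq e R κ / 30)| ≤
          roundGB 3 1 * (1 / 45 * (wsq e R κ * Real.sqrt (wsq e R κ)))) ∧
    -- the sign
    (∀ (V : Type) [NormedAddCommGroup V] [InnerProductSpace ℝ V]
      (e : OrthonormalBasis (Fin 3 × Bool) ℝ V) (R : V → V → V → V → ℝ) (κ : ℝ), AlgCurv R →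
      Einstein e R κ → κ ≠ 0 → wsq e R κ ≤ 17 * κ ^ 2 → 0 < κ * gbc e R) ∧
    -- the sign of the integral
    (∀ (M : Type) [MeasurableSpace M] (μ : Measure M) [IsFiniteMeasure μ] (K : CurvField 3 M)
      (κ : ℝ), κ ≠ 0 → (∀ p, Einstein (K.e p) (K.R p) κ) → Integrable K.gb μ →
      Integrable (fun p => wsq (K.e p) (K.R p) κ) μ →
      Integrable (fun p => wsq (K.e p) (K.R p) κ * Real.sqrt (wsq (K.e p) (K.R p) κ)) μ →
      2 * ∫ p, wsq (K.e p) (K.R p) κ * Real.sqrt (wsq (K.e p) (K.R p) κ) ∂μ <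
        90 * |κ| ^ 3 * μ.real Set.univ + 3 * |κ| * ∫ p, wsq (K.e p) (K.R p) κ ∂μ →
      0 < κ * ∫ p, K.gb p ∂μ) ∧
    -- the integrand vanishes for the products of two space forms of dimension three
    (∀ κ : ℝ, ∃ R : EuclideanSpace ℝ (Fin 3 × Bool) → EuclideanSpace ℝ (Fin 3 × Bool) →
        EuclideanSpace ℝ (Fin 3 × Bool) → EuclideanSpace ℝ (Fin 3 × Bool) → ℝ,
      AlgCurv R ∧ Einstein (EuclideanSpace.basisFun (Fin 3 × Bool) ℝ) R κ ∧
        wsq (EuclideanSpace.basisFun (Fin 3 × Bool) ℝ) R κ = 45 / 2 * κ ^ 2 ∧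
        gbc (EuclideanSpace.basisFun (Fin 3 × Bool) ℝ) R = 0) := by
  refine ⟨fun V _ _ e R κ hR hE => point_abs e hR hE,
    fun V _ _ e R κ hR hE hκ h => point_sign e hR hκ hE h, ?_, fun κ => ?_⟩
  · intro M _ μ _ K κ hκ hE hg hw hw' h
    have hk : 0 < |κ| := abs_pos.2 hκ
    have hr := rpos
    have h1 : ∫ p, roundGB 3 1 * (|κ| * (|κ| ^ 3 + |κ| / 30 * wsq (K.e p) (K.R p) κ -
        1 / 45 * (wsq (K.e p) (K.R p) κ * Real.sqrt (wsq (K.e p) (K.R p) κ)))) ∂μ ≤
        ∫ p, κ * K.gb p ∂μ := by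
      refine integral_mono ?_ (hg.const_mul κ) fun p => ?_
      · exact ((((integrable_const (|κ| ^ 3)).add (hw.const_mul (|κ| / 30))).sub
          (hw'.const_mul (1 / 45))).const_mul |κ|).const_mul (roundGB 3 1)
      · have h2 := point_low (K.e p) (K.curv p) (hE p)
        have e1 : |κ| / 30 * wsq (K.e p) (K.R p) κ = |κ| * wsq (K.e p) (K.R p) κ / 30 := by ring
        simp only
        rw [e1]
        exact h2
    have e2 : ∫ p, (|κ| ^ 3 + |κ| / 30 * wsq (K.e p) (K.R p) κ -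
        1 / 45 * (wsq (K.e p) (K.R p) κ * Real.sqrt (wsq (K.e p) (K.R p) κ))) ∂μ =
        |κ| ^ 3 * μ.real Set.univ + |κ| / 30 * ∫ p, wsq (K.e p) (K.R p) κ ∂μ -
        1 / 45 * ∫ p, wsq (K.e p) (K.R p) κ * Real.sqrt (wsq (K.e p) (K.R p) κ) ∂μ := by
      rw [integral_sub, integral_add, integral_const, integral_const_mul, integral_const_mul,
        smul_eq_mul, mul_comm (μ.real Set.univ)]
      · exact integrable_const _
      · exact hw.const_mul _
      · exact (integrable_const (|κ| ^ 3)).add (hw.const_mul (|κ| / 30))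
      · exact hw'.const_mul _
    rw [integral_const_mul, integral_const_mul, e2, integral_const_mul] at h1
    refine lt_of_lt_of_le (mul_pos hr (mul_pos hk ?_)) h1
    linarith
  · exact ⟨prodT (EuclideanSpace.basisFun (Fin 3 × Bool) ℝ) (5 / 2 * κ), prodT_curv _ _,
      prodT_Einstein _ κ, prodT_wsq _ κ, prodT_gbc _ _⟩

end Pool.Agent.Results.MP_ebfab8_gt.WeylNormDimSix
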